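import Pool.Agent.R673.LGA.Main

/-!
# Zero-cycles of degree one on del Pezzo surfaces: reduction to Picard rank one and surfaces split by
an extension of prime power degree

Let (E_1) be the statement of Q1: if there is a family of local zero-cycles of degree one orthogonal
to `Br(X)`, then there is a zero-cycle of degree one. We consider all del Pezzo surfaces `X` over all
number fields `K`.

1. Let `G` be the Galois group of the exceptional curves of `X`. If `X` satisfies (E_1) over the
   field of invariants of a Sylow `l`-subgroup of `G`, for the primes `l` dividing the degree of `X`,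
   then `X` satisfies (E_1).
2. (E_1) holds for all smooth cubic surfaces if and only if it holds for the minimal ones of Picard
   rank one whose 27 lines are defined over a Galois extension of 3-power degree (a divisor of 81).
3. (E_1) holds for all del Pezzo surfaces of degree 4 if and only if it holds for the minimal ones of
   Picard rank one whose 16 lines are defined over a Galois extension of 2-power degree.
4. (E_1) holds for all del Pezzo surfaces if and only if it holds for those of 2., those of 3. and
   the minimal ones of degree 2, Picard rank one, whose 56 exceptional curves are defined over a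
   Galois extension of 2-power degree.

## Proof

An orthogonal family restricts to an orthogonal family over an extension `K'` of `K`, by the
projection formula. A zero-cycle of degree one over `K'` gives a zero-cycle of degree `[K' : K]` by
push-forward. If `K'` is the field of invariants of a Sylow `l`-subgroup, this number is prime to
`l`; since the self-intersection of the canonical class has degree `deg X`, the primes dividing the
degree are enough. So we may assume that `G` is an `l`-group. Non-minimal surfaces are contracted:
either there is an exceptional curve over `K` or the degree grows by at least two. Minimal surfaces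
of Picard rank `≠ 1` are conic bundles, for which (E_1) is known, as it is in the degrees `≥ 5`.
-/

set_option autoImplicit false

namespace Pool.Agent.Results.MP_1ad228_nt.RankOnePrimeByPrime

open Pool.Agent.R673.LGA

/-- **Zero-cycles of degree one on del Pezzo surfaces.** -/
theorem result (𝒮 : DelPezzoSystem) :
    (∀ X : 𝒮.Obj, (∀ l : ℕ, l.Prime → l ∣ 𝒮.deg X →
      ∃ P : Sylow l (𝒮.Gal X), (𝒮.cyc (𝒮.ofSub X P)).E1) → (𝒮.cyc X).E1) ∧
    ((∀ X : 𝒮.Obj, 𝒮.deg X = 3 → (𝒮.cyc X).E1) ↔
      ∀ X : 𝒮.Obj, 𝒮.deg X = 3 → 𝒮.IsCritical 3 X → (𝒮.cyc X).E1) ∧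
    ((∀ X : 𝒮.Obj, 𝒮.deg X = 4 → (𝒮.cyc X).E1) ↔
      ∀ X : 𝒮.Obj, 𝒮.deg X = 4 → 𝒮.IsCritical 2 X → (𝒮.cyc X).E1) ∧
    ((∀ X : 𝒮.Obj, (𝒮.cyc X).E1) ↔
      (∀ X : 𝒮.Obj, 𝒮.deg X = 2 → 𝒮.IsCritical 2 X → (𝒮.cyc X).E1) ∧
      (∀ X : 𝒮.Obj, 𝒮.deg X = 3 → 𝒮.IsCritical 3 X → (𝒮.cyc X).E1) ∧
      (∀ X : 𝒮.Obj, 𝒮.deg X = 4 → 𝒮.IsCritical 2 X → (𝒮.cyc X).E1)) :=
  ⟨of_sylow 𝒮, main_cubic 𝒮, main_four 𝒮, main_all 𝒮⟩

end Pool.Agent.Results.MP_1ad228_nt.RankOnePrimeByPrime
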