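import Pool.Agent.R925.ZC.Res

/-!
# Zero-cycles of degree one on almost all twists of a cyclic covering

Let `b y ^ 2 = ∏ k, G k (z, w)` be a hyperelliptic curve `D` over `ℚ`, where the `G k` are the
homogenisations of polynomials `g k` with integral coefficients, of even degrees, pairwise coprime.
Let `h` be a polynomial with integral coefficients, coprime to the `g k`, and `H` its homogenisation.
For a squarefree integer `a` and an even `m ∣ deg h` consider the curve

  `C a : b y ^ 2 = ∏ k, G k (z, w)`, `a x ^ m = H (z, w)`.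

It is a cyclic covering of degree `m` of `D`, and for different `a` these coverings are twists of each
other. Its genus is arbitrary, and nothing is known about the Tate-Shafarevich group of its Jacobian.

The classes of the quaternion algebras `(G k, e)`, `e` a nonzero integer, are unramified on `D`, so they
define elements of the Brauer group of `C a`. A zero-cycle `∑ c i P i` over `ℚ_p` or `ℝ`, with points
`P i` over finite extensions `E i`, has the value `(∏ N (G k (P i)) ^ c i, e)` in the Brauer group of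
`ℚ_p` or `ℝ`. An adelic zero-cycle is orthogonal if the sum of the invariants of these values is zero
for each of these classes.

We prove that for all squarefree `a`, `|a| ≤ X`, with at most `C X (log X) ^ (-κ)` exceptions, `κ > 0`,
and all `m`:

* every orthogonal adelic zero-cycle of odd degree (for instance, of degree one) on `C a` has the values
  of a persistent class: there are squarefree integers `n k` such that the products of `n k` and of the
  values of `G k` are squares at all places, and for every automorphism `σ` of the field of algebraic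
  numbers there is a `σ`-stable set of zeros `β` of `h` of odd cardinality with
  `∏ β, g k (β) = n k * y k ^ 2`, `σ (y k) = y k`;
* if the zeros of `h` are one or two rational numbers (with any multiplicities), the existence of an
  orthogonal adelic zero-cycle of odd degree implies the existence of a rational point;
* if there are no persistent classes, no adelic zero-cycle of odd degree is orthogonal.

So in the last two cases the Brauer-Manin obstruction is the only one to the existence of zero-cycles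
of degree one on `C a`, and even on rational points, for almost all `a`, without assumptions on the
Tate-Shafarevich groups. The last case occurs for `h` with the zeros `± √A`, `± √B`, `± √(A B)`, if one
of the `g k` is `z ^ 2 + c` and `(A + c) (B + c)` is not a square in the field `ℚ(√A, √B)` of degree `4`.
For `g = (z ^ 2 + 51, z ^ 2 - 1)`, `h = (z ^ 2 + 1) (z ^ 2 - 17) (z ^ 2 + 17)`, `b = 1`, there are points
over the real numbers and over all the `p`-adic fields on all the curves `C a`.

The proof: over `ℚ_p`, `p` a prime divisor of `a`, the points of `C a` over extensions `E` reduce to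
zeros of `h`, or `E` has an even ramification index, and then the norms of all the units of `E` are
squares. So an adelic zero-cycle of odd degree defines a cycle of odd degree on the zeros of `h` modulo
`p` with given values. For classes which are not persistent this is impossible for a positive
proportion of the primes `p`.
-/

set_option autoImplicit false

namespace Pool.Agent.Results.MP_1ad228_nt.ZeroCyclesOfTwistedCoverings

open Polynomial Pool.Agent.R925.FD Pool.Agent.R925.ZC

/-- The conditions on the polynomials: nonzero, the `g k` of even degrees, pairwise coprime over `ℚ`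
and coprime to `h`, which is not constant. -/
structure Admissible {K : Type} (b : ℤ) (g : K → ℤ[X]) (h : ℤ[X]) : Prop where
  b_ne : b ≠ 0
  g_ne : ∀ k, g k ≠ 0
  h_deg : 1 ≤ h.natDegree
  deg : ∀ k, 2 ∣ (g k).natDegree
  coprime : ∀ k l, k ≠ l →
    IsCoprime ((g k).map (Int.castRingHom ℚ)) ((g l).map (Int.castRingHom ℚ))
  coprime_h : ∀ k, IsCoprime (h.map (Int.castRingHom ℚ)) ((g k).map (Int.castRingHom ℚ))

/-- The squarefree integers `a`, `|a| ≤ X`, with the property `P` are at most
`C * X * (log X) ^ (-κ)`, for some `κ > 0` and `C`, for all `X ≥ 3`. -/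
def AlmostNone (P : ℤ → Prop) : Prop :=
  ∃ κ : ℝ, 0 < κ ∧ ∃ C : ℝ, ∀ X : ℕ, 3 ≤ X →
    ({a : ℤ | a.natAbs ≤ X ∧ Squarefree a ∧ P a}.ncard : ℝ) ≤ C * X * (Real.log X) ^ (-κ)

/-- The components of the adelic zero-cycle have odd degree. -/
def OddDegree {K : Type} [Fintype K] [DecidableEq K] {m : ℕ} {b a : ℤ} {g : K → ℤ[X]} {h : ℤ[X]}
    (Z : AdelicCycle m b a g h) : Prop :=
  Odd Z.re.degree ∧ ∀ p, Odd (Z.pa p).degree

/-- The adelic zero-cycle has the values of a persistent class. -/
def OfPersistentClass {K : Type} [Fintype K] [DecidableEq K] {m : ℕ} {b a : ℤ} {g : K → ℤ[X]}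
    {h : ℤ[X]} (Z : AdelicCycle m b a g h) : Prop :=
  ∃ n : K → ℤ, (∀ k, Squarefree (n k)) ∧ IsClassZ 1 b (fun k => (n k : ℚ)) ∧
    ZPersistent 1 g h (fun k => (n k : ℚ)) ∧
    (∀ k, IsSquare (cycVal Z.re k * (n k : ℝ))) ∧
    ∀ k (p : Nat.Primes), IsSquare (cycVal (Z.pa p) k * (n k : ℚ_[(p : ℕ)]))

/-- There are no persistent classes (of odd degree). -/
def NoPersistentClasses {K : Type} [Fintype K] (b : ℤ) (g : K → ℤ[X]) (h : ℤ[X]) : Prop :=
  ∀ δ : K → ℚ, IsClassZ 1 b δ → ¬ ZPersistent 1 g h δ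

lemma parity_of_odd {K : Type} [Fintype K] [DecidableEq K] {m : ℕ} {b a : ℤ} {g : K → ℤ[X]}
    {h : ℤ[X]} {Z : AdelicCycle m b a g h} (hZ : OddDegree Z) : Z.Parity 1 :=
  ⟨⟨fun h1 => absurd h1 (Int.not_even_iff_odd.2 hZ.1), fun h1 => absurd h1 (by decide)⟩,
    fun p => ⟨fun h1 => absurd h1 (Int.not_even_iff_odd.2 (hZ.2 p)), fun h1 => absurd h1 (by decide)⟩⟩

/-- a bound for a smaller set -/
lemma AlmostNone.mono {P Q : ℤ → Prop} (hQ : AlmostNone Q) (h : ∀ a, Squarefree a → P a → Q a) :
    AlmostNone P := by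
  obtain ⟨κ, hκ, C, hC⟩ := hQ
  refine ⟨κ, hκ, C, fun X hX => le_trans ?_ (hC X hX)⟩
  refine Nat.cast_le.2 (Set.ncard_le_ncard ?_ ?_)
  · rintro a ⟨h1, h2, h3⟩
    exact ⟨h1, h2, h a h2 h3⟩
  · apply (Set.finite_Icc (-(X : ℤ)) X).subset
    intro d hd
    have h1 : d.natAbs ≤ X := hd.1
    rw [Set.mem_Icc]
    omega

/-- **Zero-cycles of odd degree on twisted coverings.** -/
theorem result :
    (∀ (K : Type) [Fintype K] [DecidableEq K] (b : ℤ) (g : K → ℤ[X]) (h : ℤ[X]), Admissible b g h →
      AlmostNone (fun a => ∃ m, 0 < m ∧ Even m ∧ m ∣ h.natDegree ∧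
        ∃ Z : AdelicCycle m b a g h, OddDegree Z ∧ Z.Orthogonal ∧ ¬ OfPersistentClass Z) ∧
      (∀ α₁ α₂ : ℚ, (∀ β : AlgebraicClosure ℚ, aeval β h = 0 ↔ β = α₁ ∨ β = α₂) →
        AlmostNone (fun a => ∃ m, 0 < m ∧ Even m ∧ m ∣ h.natDegree ∧
          (∃ Z : AdelicCycle m b a g h, OddDegree Z ∧ Z.Orthogonal) ∧
          ¬ Nonempty (Point m b a g h ℚ))) ∧
      (NoPersistentClasses b g h →
        AlmostNone (fun a => ∃ m, 0 < m ∧ Even m ∧ m ∣ h.natDegree ∧
          ∃ Z : AdelicCycle m b a g h, OddDegree Z ∧ Z.Orthogonal)) ∧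
      ∀ (m : ℕ) (a : ℤ) (Z : AdelicCycle m b a g h) (k : K) (e : ℤ), e ≠ 0 →
        (Pool.Agent.W313.BMX.ram (Z.values k) e).Finite) ∧
    (∀ (K : Type) [Fintype K] (b : ℤ) (g : K → ℤ[X]) (h : ℤ[X]) (k₀ : K) (A B c : ℚ),
      ¬ IsSquare A → ¬ IsSquare B → ¬ IsSquare (A * B) →
      (∀ β : AlgebraicClosure ℚ, aeval β h = 0 → β ^ 2 = (A : AlgebraicClosure ℚ) ∨
        β ^ 2 = (B : AlgebraicClosure ℚ) ∨ β ^ 2 = ((A * B : ℚ) : AlgebraicClosure ℚ)) →
      (∀ β : AlgebraicClosure ℚ, aeval β (g k₀) = β ^ 2 + (c : AlgebraicClosure ℚ)) →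
      A + c ≠ 0 → B + c ≠ 0 → A * B + c ≠ 0 →
      (∀ e, (e = 1 ∨ e = A ∨ e = B ∨ e = A * B) → ¬ IsSquare (e * ((A + c) * (B + c)))) →
      NoPersistentClasses b g h) ∧
    Admissible 1 exg exh ∧ NoPersistentClasses 1 exg exh ∧
    ∀ (m : ℕ) (a : ℤ), m ≠ 0 → Nonempty (Point m 1 a exg exh ℝ) ∧
      ∀ (p : ℕ) [Fact p.Prime], Nonempty (Point m 1 a exg exh ℚ_[p]) := by
  refine ⟨fun K _ _ b g h hA => ⟨?_, fun α₁ α₂ hz => ?_, fun hno => ?_, fun m a Z k e he => ?_⟩,
    fun K _ b g h k₀ A B c h1 h2 h3 h4 h5 h6 h7 h8 h9 δ hδ =>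
      not_zpers g h k₀ A B c h1 h2 h3 h4 h5 h6 h7 h8 h9 δ (hδ.1 k₀) odd_one,
    ⟨one_ne_zero, exg_ne, by rw [exh_deg]; norm_num, fun k => by rw [exg_deg], exg_coprime,
      exgh_coprime⟩, fun δ hδ => ex_not_zpers δ (hδ.1 0) odd_one, fun m a hm => ⟨?_, ?_⟩⟩
  · exact AlmostNone.mono (zc_main hA.b_ne hA.g_ne hA.h_deg hA.deg hA.coprime hA.coprime_h)
      fun a _ ⟨m, _, hm, hmh, Z, h1, h2, h3⟩ => ⟨m, hm, hmh, 1, Z, parity_of_odd h1, h2, h3⟩
  · exact AlmostNone.mono (zc_main hA.b_ne hA.g_ne hA.h_deg hA.deg hA.coprime hA.coprime_h)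
      fun a _ ⟨m, hm0, hm, hmh, ⟨Z, h1, h2⟩, h3⟩ => ⟨m, hm, hmh, 1, Z, parity_of_odd h1, h2,
        fun ⟨n, _, hn2, hn3, _⟩ => by
          obtain ⟨P, -⟩ := realize_odd (m := m) (a := a) hm0 hA.b_ne hz
            (fun k => g_ne hA.h_deg hA.coprime_h ((hz α₁).2 (Or.inl rfl)) k)
            (fun k => g_ne hA.h_deg hA.coprime_h ((hz α₂).2 (Or.inr rfl)) k) odd_one _ hn2 hn3
          exact h3 ⟨P⟩⟩
  · exact AlmostNone.mono (zc_main hA.b_ne hA.g_ne hA.h_deg hA.deg hA.coprime hA.coprime_h)
      fun a _ ⟨m, _, hm, hmh, Z, h1, h2⟩ => ⟨m, hm, hmh, 1, Z, parity_of_odd h1, h2,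
        fun ⟨_, _, hn2, hn3, _⟩ => hno _ hn2 hn3⟩
  · exact ram_finite hA.b_ne hA.g_ne (by
      rintro rfl
      have := hA.h_deg
      rw [natDegree_zero] at this
      omega) hA.deg hA.coprime hA.coprime_h Z k e he
  · obtain ⟨z, w, x, y, h1, h2, h3⟩ := ex_real m hm a
    exact ⟨⟨z, w, x, y, h1, h2, h3⟩⟩
  · intro p hp
    obtain ⟨z, w, x, y, h1, h2, h3⟩ := ex_padic m hm a p
    exact ⟨⟨z, w, x, y, h1, h2, h3⟩⟩

end Pool.Agent.Results.MP_1ad228_nt.ZeroCyclesOfTwistedCoverings
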